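import Pool.Agent.Lib.MP_72b724_gt.Interfaces

/-!
# MP_72b724_gt, module CHAIN: the equivariant chain map
-/

open scoped BigOperators

namespace Pool.Agent.Lib.MP_72b724_gt.H80

noncomputable section

/-- A uniformly bounded family of functionals as an operator. -/
def famOp {α U : Type} (K : ℝ) (Ψ : U → (Bdd α →ₗ[ℝ] ℝ))
    (h : ∀ u f C, Bdd.Le f C → |Ψ u f| ≤ K * C) : Bdd α →ₗ[ℝ] Bdd U where
  toFun f := ⟨fun u => Ψ u f, by
    obtain ⟨C, hC⟩ := f.2
    exact ⟨K * C, fun u => h u f C hC⟩⟩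
  map_add' f g := Subtype.ext (funext fun u => map_add (Ψ u) f g)
  map_smul' r f := Subtype.ext (funext fun u => map_smul (Ψ u) r f)

/-- Evaluation. -/
def evAt {α : Type} (x : α) : Bdd α →ₗ[ℝ] ℝ where
  toFun f := f.1 x
  map_add' _ _ := rfl
  map_smul' _ _ := rfl

theorem act_mul {Γ : Type} [Group Γ] {S : SimpSet} (A : S.Act Γ) (g h : Γ) {m : ℕ} (x : S.X m) :
    A.tr g (A.tr h x) = A.tr (g * h) x :=
  ((A.act m).mul_smul g h x).symm

theorem act_one {Γ : Type} [Group Γ] {S : SimpSet} (A : S.Act Γ) {m : ℕ} (x : S.X m) :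
    A.tr (1 : Γ) x = x := (A.act m).one_smul x

theorem act_d {Γ : Type} [Group Γ] {S : SimpSet} (A : S.Act Γ) (g : Γ) {m : ℕ} (i : Fin (m + 2))
    (x : S.X (m + 1)) : S.d i (A.tr g x) = A.tr g (S.d i x) := A.map_smul _ g x

theorem delta_apply (F : FSet) {m : ℕ} (f : Bdd (F.X m)) (x : F.X (m + 1)) :
    (F.δ f).1 x = ∑ i : Fin (m + 2), (-1 : ℝ) ^ (i : ℕ) * f.1 (F.d i x) := by
  unfold FSet.δ
  rw [LinearMap.sum_apply, Submodule.coe_sum, Finset.sum_apply]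
  rfl

theorem pull_delta {Γ : Type} [Group Γ] {S : SimpSet} (A : S.Act Γ) (h : Γ) {m : ℕ}
    (f : Bdd (S.X m)) :
    Bdd.pull (fun x : S.X (m + 1) => A.tr h x) (S.toF.δ f) =
      S.toF.δ (Bdd.pull (fun x : S.X m => A.tr h x) f) := by
  apply Subtype.ext
  funext x
  have h1 := delta_apply S.toF f (A.tr h x)
  have h2 := delta_apply S.toF (Bdd.pull (fun x : S.X m => A.tr h x) f) x
  refine h1.trans (Eq.trans ?_ h2.symm)
  refine Finset.sum_congr rfl fun i _ => ?_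
  have h3 : S.toF.d i (A.tr h x) = A.tr h (S.toF.d i x) := act_d A h i x
  rw [h3]
  rfl

section Construction

variable {Γ : Type} [Group Γ] {S : SimpSet} (A : S.Act Γ) {X : Type} [MulAction Γ X] {c : ℝ}
  (k₀ : Bdd (S.X 0) →ₗ[ℝ] ℝ) (hk₀ : ∀ f C, Bdd.Le f C → |k₀ f| ≤ c * C)
  (k : ∀ m : ℕ, Bdd (S.X (m + 1)) →ₗ[ℝ] Bdd (S.X m))
  (hk : ∀ m f C, Bdd.Le f C → Bdd.Le (k m f) (c * C))
  (μ : X → (Bdd Γ →ₗ[ℝ] ℝ)) (hμ : ∀ x f C, Bdd.Le f C → |μ x f| ≤ C)

/-- The functionals in degree zero. -/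
def inner0 : Γ → (Bdd (S.X 0) →ₗ[ℝ] ℝ) := fun h => k₀ ∘ₗ Bdd.pull (fun x : S.X 0 => A.tr h x)

include hk₀ in
theorem inner0_le (h : Γ) (f : Bdd (S.X 0)) (C : ℝ) (hf : Bdd.Le f C) :
    |inner0 A k₀ h f| ≤ c * C := hk₀ _ C fun x => hf _

/-- The functionals in degree `m + 1`. -/
def innerS {m : ℕ} (a : Bdd (S.X m) →ₗ[ℝ] Bdd (Fin (m + 1) → X))
    (km : Bdd (S.X (m + 1)) →ₗ[ℝ] Bdd (S.X m)) (u : Fin (m + 2) → X) :
    Γ → (Bdd (S.X (m + 1)) →ₗ[ℝ] ℝ) := fun h =>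
  evAt (fun i : Fin (m + 1) => h⁻¹ • u i.succ) ∘ₗ a ∘ₗ km ∘ₗ
    Bdd.pull (fun x : S.X (m + 1) => A.tr h x)

theorem innerS_le {m : ℕ} (a : Bdd (S.X m) →ₗ[ℝ] Bdd (Fin (m + 1) → X))
    (km : Bdd (S.X (m + 1)) →ₗ[ℝ] Bdd (S.X m)) (u : Fin (m + 2) → X)
    (ha : ∀ f C, Bdd.Le f C → Bdd.Le (a f) (c ^ (m + 1) * C))
    (hkm : ∀ f C, Bdd.Le f C → Bdd.Le (km f) (c * C)) (h : Γ) (f : Bdd (S.X (m + 1))) (C : ℝ)
    (hf : Bdd.Le f C) : |innerS A a km u h f| ≤ c ^ (m + 2) * C := by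
  have h1 := ha _ _ (hkm (Bdd.pull (fun x : S.X (m + 1) => A.tr h x) f) C fun x => hf _)
  have h2 := h1 (fun i : Fin (m + 1) => h⁻¹ • u i.succ)
  have h3 : c ^ (m + 1) * (c * C) = c ^ (m + 2) * C := by ring
  rw [h3] at h2
  exact h2

/-- The chain map. -/
def chainA : ∀ m : ℕ, {a : Bdd (S.X m) →ₗ[ℝ] Bdd (Fin (m + 1) → X) //
    ∀ f C, Bdd.Le f C → Bdd.Le (a f) (c ^ (m + 1) * C)}
  | 0 => ⟨famOp (c ^ (0 + 1)) (fun u => μ (u 0) ∘ₗ famOp c (inner0 A k₀) (inner0_le A k₀ hk₀))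
      (fun u f C hf => by
        have h1 : c ^ (0 + 1) * C = c * C := by ring
        rw [h1]
        exact hμ _ _ _ fun h => inner0_le A k₀ hk₀ h f C hf),
      fun f C hf u => by
        have h1 : c ^ (0 + 1) * C = c * C := by ring
        rw [h1]
        exact hμ _ _ _ fun h => inner0_le A k₀ hk₀ h f C hf⟩
  | m + 1 => ⟨famOp (c ^ (m + 1 + 1)) (fun u => μ (u 0) ∘ₗ famOp (c ^ (m + 2))
        (innerS A (chainA m).1 (k m) u) (innerS_le A (chainA m).1 (k m) u (chainA m).2 (hk m)))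
      (fun u f C hf => hμ _ _ _ fun h =>
        innerS_le A (chainA m).1 (k m) u (chainA m).2 (hk m) h f C hf),
      fun f C hf u => hμ _ _ _ fun h =>
        innerS_le A (chainA m).1 (k m) u (chainA m).2 (hk m) h f C hf⟩

theorem chainA_zero (f : Bdd (S.X 0)) (u : Fin (0 + 1) → X) :
    ((chainA A k₀ hk₀ k hk μ hμ 0).1 f).1 u =
      μ (u 0) (famOp c (inner0 A k₀) (inner0_le A k₀ hk₀) f) := rfl

theorem chainA_succ (m : ℕ) (f : Bdd (S.X (m + 1))) (u : Fin (m + 1 + 1) → X) :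
    ((chainA A k₀ hk₀ k hk μ hμ (m + 1)).1 f).1 u =
      μ (u 0) (famOp (c ^ (m + 2)) (innerS A (chainA A k₀ hk₀ k hk μ hμ m).1 (k m) u)
        (innerS_le A (chainA A k₀ hk₀ k hk μ hμ m).1 (k m) u
          (chainA A k₀ hk₀ k hk μ hμ m).2 (hk m)) f) := rfl

theorem chainA_equiv
    (hμg : ∀ (g : Γ) (x : X) (f : Bdd Γ), μ (g • x) f = μ x (Bdd.pull (fun h => g * h) f))
    (m : ℕ) (g : Γ) (f : Bdd (S.X m)) (u : Fin (m + 1) → X) :
    ((chainA A k₀ hk₀ k hk μ hμ m).1 (Bdd.pull (fun x => A.tr g x) f)).1 u =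
      ((chainA A k₀ hk₀ k hk μ hμ m).1 f).1 (fun i => g • u i) := by
  rcases m with _ | m
  · rw [chainA_zero, chainA_zero, hμg]
    congr 1
    apply Subtype.ext
    funext h
    change k₀ (Bdd.pull _ (Bdd.pull _ f)) = k₀ (Bdd.pull _ f)
    congr 1
    apply Subtype.ext
    funext x
    change f.1 (A.tr g (A.tr h x)) = f.1 (A.tr (g * h) x)
    rw [act_mul]
  · rw [chainA_succ, chainA_succ, hμg]
    congr 1
    apply Subtype.ext
    funext h
    change ((chainA A k₀ hk₀ k hk μ hμ m).1 (k m (Bdd.pull _ (Bdd.pull _ f)))).1 _ =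
      ((chainA A k₀ hk₀ k hk μ hμ m).1 (k m (Bdd.pull _ f))).1 _
    have h1 : Bdd.pull (fun x : S.X (m + 1) => A.tr h x) (Bdd.pull (fun x => A.tr g x) f) =
        Bdd.pull (fun x : S.X (m + 1) => A.tr (g * h) x) f := by
      apply Subtype.ext
      funext x
      change f.1 (A.tr g (A.tr h x)) = f.1 (A.tr (g * h) x)
      rw [act_mul]
    rw [h1]
    refine congrArg ((chainA A k₀ hk₀ k hk μ hμ m).1 (k m (Bdd.pull _ f))).1 ?_
    funext i
    change h⁻¹ • u i.succ = (g * h)⁻¹ • (g • u i.succ)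
    rw [smul_smul, mul_inv_rev, mul_assoc, inv_mul_cancel, mul_one]

/-- Equivariance, second form. -/
theorem chainA_equiv'
    (hμg : ∀ (g : Γ) (x : X) (f : Bdd Γ), μ (g • x) f = μ x (Bdd.pull (fun h => g * h) f))
    (m : ℕ) (g : Γ) (f : Bdd (S.X m)) (u : Fin (m + 1) → X) :
    ((chainA A k₀ hk₀ k hk μ hμ m).1 (Bdd.pull (fun x => A.tr g x) f)).1 (fun i => g⁻¹ • u i) =
      ((chainA A k₀ hk₀ k hk μ hμ m).1 f).1 u := by
  rw [chainA_equiv A k₀ hk₀ k hk μ hμ hμg]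
  refine congrArg ((chainA A k₀ hk₀ k hk μ hμ m).1 f).1 ?_
  funext i
  rw [smul_inv_smul]

omit [Group Γ] [MulAction Γ X] in
theorem mu_const (hμ1 : ∀ x, μ x (Bdd.const 1) = 1) (x : X) (r : ℝ) :
    μ x (Bdd.const r) = r := by
  have : (Bdd.const r : Bdd Γ) = r • Bdd.const 1 := by
    apply Subtype.ext
    funext h
    change r = r * 1
    ring
  rw [this, map_smul, hμ1, smul_eq_mul, mul_one]

theorem chainA_const (hμ1 : ∀ x, μ x (Bdd.const 1) = 1) (h1 : k₀ (Bdd.const 1) = 1) (r : ℝ)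
    (u : Fin (0 + 1) → X) :
    ((chainA A k₀ hk₀ k hk μ hμ 0).1 (Bdd.const r)).1 u = r := by
  rw [chainA_zero]
  have h2 : k₀ (Bdd.const r) = r := by
    have : (Bdd.const r : Bdd (S.X 0)) = r • Bdd.const 1 := by
      apply Subtype.ext
      funext h
      change r = r * 1
      ring
    rw [this, map_smul, h1, smul_eq_mul, mul_one]
  have : famOp c (inner0 A k₀) (inner0_le A k₀ hk₀) (Bdd.const r) = Bdd.const r := by
    apply Subtype.ext
    funext h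
    exact h2
  rw [this, mu_const μ hμ1]

/-- The coboundary on `Bdd (S.X m)`. -/
def dS (S : SimpSet) {m : ℕ} : Bdd (S.X m) →ₗ[ℝ] Bdd (S.X (m + 1)) := S.toF.δ

/-- The coboundary on tuples. -/
def dT (X : Type) {m : ℕ} : Bdd (Fin (m + 1) → X) →ₗ[ℝ] Bdd (Fin (m + 1 + 1) → X) := (tupF X).δ

theorem dT_apply (X : Type) {m : ℕ} (f : Bdd (Fin (m + 1) → X)) (u : Fin (m + 1 + 1) → X) :
    (dT X f).1 u = ∑ i : Fin (m + 2), (-1 : ℝ) ^ (i : ℕ) * f.1 (fun a => u (i.succAbove a)) :=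
  delta_apply (tupF X) f u

theorem pull_dS {Γ : Type} [Group Γ] {S : SimpSet} (A : S.Act Γ) (h : Γ) {m : ℕ}
    (f : Bdd (S.X m)) :
    Bdd.pull (fun x : S.X (m + 1) => A.tr h x) (dS S f) =
      dS S (Bdd.pull (fun x : S.X m => A.tr h x) f) := pull_delta A h f

theorem chainA_delta (hμ1 : ∀ x, μ x (Bdd.const 1) = 1) (h1 : k₀ (Bdd.const 1) = 1)
    (hμg : ∀ (g : Γ) (x : X) (f : Bdd Γ), μ (g • x) f = μ x (Bdd.pull (fun h => g * h) f))
    (N : ℕ) (hk1 : ∀ f : Bdd (S.X 0), k 0 (dS S f) + Bdd.const (k₀ f) = f)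
    (hk2 : ∀ m < N, ∀ f : Bdd (S.X (m + 1)), k (m + 1) (dS S f) + dS S (k m f) = f)
    (m : ℕ) (hm : m ≤ N) (f : Bdd (S.X m)) :
    (chainA A k₀ hk₀ k hk μ hμ (m + 1)).1 (dS S f) =
      dT X ((chainA A k₀ hk₀ k hk μ hμ m).1 f) := by
  induction m with
  | zero =>
    apply Subtype.ext
    funext u
    rw [dT_apply, chainA_succ]
    have key : famOp (c ^ (0 + 2)) (innerS A (chainA A k₀ hk₀ k hk μ hμ 0).1 (k 0) u)
        (innerS_le A (chainA A k₀ hk₀ k hk μ hμ 0).1 (k 0) u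
          (chainA A k₀ hk₀ k hk μ hμ 0).2 (hk 0)) (dS S f) =
        Bdd.const (((chainA A k₀ hk₀ k hk μ hμ 0).1 f).1 (fun i => u i.succ)) -
          famOp c (inner0 A k₀) (inner0_le A k₀ hk₀) f := by
      apply Subtype.ext
      funext h
      change ((chainA A k₀ hk₀ k hk μ hμ 0).1 (k 0 (Bdd.pull (fun x : S.X 1 => A.tr h x)
        (dS S f)))).1 (fun i => h⁻¹ • u i.succ) =
        ((chainA A k₀ hk₀ k hk μ hμ 0).1 f).1 (fun i => u i.succ) -
          k₀ (Bdd.pull (fun x : S.X 0 => A.tr h x) f)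
      rw [pull_dS A h f]
      have h3 : k 0 (dS S (Bdd.pull (fun x : S.X 0 => A.tr h x) f)) =
          Bdd.pull (fun x : S.X 0 => A.tr h x) f -
            Bdd.const (k₀ (Bdd.pull (fun x : S.X 0 => A.tr h x) f)) :=
        eq_sub_of_add_eq (hk1 _)
      rw [h3, map_sub]
      change ((chainA A k₀ hk₀ k hk μ hμ 0).1 (Bdd.pull (fun x : S.X 0 => A.tr h x) f)).1
        (fun i => h⁻¹ • u i.succ) - ((chainA A k₀ hk₀ k hk μ hμ 0).1
          (Bdd.const (k₀ (Bdd.pull (fun x : S.X 0 => A.tr h x) f)))).1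
            (fun i => h⁻¹ • u i.succ) = _
      rw [chainA_equiv' A k₀ hk₀ k hk μ hμ hμg 0 h f (fun i => u i.succ),
        chainA_const A k₀ hk₀ k hk μ hμ hμ1 h1]
    rw [key, map_sub, mu_const μ hμ1, Fin.sum_univ_two]
    have e1 : ((chainA A k₀ hk₀ k hk μ hμ 0).1 f).1 (fun a => u (Fin.succAbove 1 a)) =
        μ (u 0) (famOp c (inner0 A k₀) (inner0_le A k₀ hk₀) f) := chainA_zero A k₀ hk₀ k hk μ hμ f _
    have e2 : (fun a : Fin (0 + 1) => u (Fin.succAbove 0 a)) = fun i => u i.succ := rfl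
    rw [e1, e2]
    simp only [Fin.coe_ofNat_eq_mod, Nat.zero_mod, pow_zero, one_mul, Nat.one_mod, pow_one]
    ring
  | succ m ih =>
    have ih' := ih (by omega)
    apply Subtype.ext
    funext u
    rw [dT_apply, chainA_succ]
    have key : famOp (c ^ (m + 1 + 2)) (innerS A (chainA A k₀ hk₀ k hk μ hμ (m + 1)).1 (k (m + 1)) u)
        (innerS_le A (chainA A k₀ hk₀ k hk μ hμ (m + 1)).1 (k (m + 1)) u
          (chainA A k₀ hk₀ k hk μ hμ (m + 1)).2 (hk (m + 1))) (dS S f) =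
        Bdd.const (((chainA A k₀ hk₀ k hk μ hμ (m + 1)).1 f).1 (fun i => u i.succ)) -
          ∑ i : Fin (m + 2), ((-1 : ℝ) ^ (i : ℕ)) •
            famOp (c ^ (m + 2)) (innerS A (chainA A k₀ hk₀ k hk μ hμ m).1 (k m)
              (fun a => u (i.succ.succAbove a)))
              (innerS_le A (chainA A k₀ hk₀ k hk μ hμ m).1 (k m)
                (fun a => u (i.succ.succAbove a))
                (chainA A k₀ hk₀ k hk μ hμ m).2 (hk m)) f := by
      apply Subtype.ext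
      funext h
      have lhs : (famOp (c ^ (m + 1 + 2)) (innerS A (chainA A k₀ hk₀ k hk μ hμ (m + 1)).1
          (k (m + 1)) u) (innerS_le A (chainA A k₀ hk₀ k hk μ hμ (m + 1)).1 (k (m + 1)) u
          (chainA A k₀ hk₀ k hk μ hμ (m + 1)).2 (hk (m + 1))) (dS S f)).1 h =
          ((chainA A k₀ hk₀ k hk μ hμ (m + 1)).1 (k (m + 1)
            (Bdd.pull (fun x : S.X (m + 1 + 1) => A.tr h x) (dS S f)))).1
              (fun i => h⁻¹ • u i.succ) := rfl
      rw [lhs, pull_dS A h f]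
      have h3 : k (m + 1) (dS S (Bdd.pull (fun x : S.X (m + 1) => A.tr h x) f)) =
          Bdd.pull (fun x : S.X (m + 1) => A.tr h x) f -
            dS S (k m (Bdd.pull (fun x : S.X (m + 1) => A.tr h x) f)) :=
        eq_sub_of_add_eq (hk2 m (by omega) _)
      rw [h3, map_sub, ih']
      have e1 := chainA_equiv' A k₀ hk₀ k hk μ hμ hμg (m + 1) h f (fun i => u i.succ)
      have e2 := dT_apply X ((chainA A k₀ hk₀ k hk μ hμ m).1
        (k m (Bdd.pull (fun x : S.X (m + 1) => A.tr h x) f))) (fun i => h⁻¹ • u i.succ)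
      have l1 : ∀ (F G : Bdd (Fin (m + 1 + 1) → X)) v, (F - G).1 v = F.1 v - G.1 v :=
        fun _ _ _ => rfl
      have l2 : ∀ (F G : Bdd Γ) v, (F - G).1 v = F.1 v - G.1 v := fun _ _ _ => rfl
      rw [l1, l2, e1, e2]
      have l3 : ∀ (F : Fin (m + 2) → Bdd Γ) v, (∑ i, F i).1 v = ∑ i, (F i).1 v := by
        intro F v
        rw [Submodule.coe_sum, Finset.sum_apply]
      rw [l3]
      have l4 : (Bdd.const (((chainA A k₀ hk₀ k hk μ hμ (m + 1)).1 f).1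
        (fun i => u i.succ)) : Bdd Γ).1 h = ((chainA A k₀ hk₀ k hk μ hμ (m + 1)).1 f).1
          (fun i => u i.succ) := rfl
      rw [l4]
      refine congrArg (fun r => ((chainA A k₀ hk₀ k hk μ hμ (m + 1)).1 f).1
          (fun i => u i.succ) - r) ?_
      refine Finset.sum_congr rfl fun i _ => ?_
      refine congrArg (fun r => (-1 : ℝ) ^ (i : ℕ) * r) ?_
      refine congrArg ((chainA A k₀ hk₀ k hk μ hμ m).1
        (k m (Bdd.pull (fun x : S.X (m + 1) => A.tr h x) f))).1 ?_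
      funext a
      change h⁻¹ • u (i.succAbove a).succ = h⁻¹ • u (i.succ.succAbove a.succ)
      rw [Fin.succ_succAbove_succ]
    rw [key, map_sub, mu_const μ hμ1, map_sum]
    simp only [map_smul, smul_eq_mul]
    rw [sub_eq_add_neg, ← Finset.sum_neg_distrib]
    conv_rhs => rw [Fin.sum_univ_succ]
    have e2 : (fun a : Fin (m + 1 + 1) => u (Fin.succAbove 0 a)) = fun i => u i.succ := rfl
    rw [e2]
    simp only [Fin.val_zero, pow_zero, one_mul]
    refine congrArg (fun r => ((chainA A k₀ hk₀ k hk μ hμ (m + 1)).1 f).1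
          (fun i => u i.succ) + r) ?_
    refine Finset.sum_congr rfl fun i _ => ?_
    have e3 := chainA_succ A k₀ hk₀ k hk μ hμ m f (fun a => u (i.succ.succAbove a))
    have e4 : u (i.succ.succAbove 0) = u 0 := by
      rw [Fin.succ_succAbove_zero]
    rw [e4] at e3
    have e5 : (-1 : ℝ) ^ ((i.succ : Fin (m + 1 + 2)) : ℕ) = -(-1 : ℝ) ^ (i : ℕ) := by
      rw [Fin.val_succ, pow_succ]
      ring
    rw [e3, e5, neg_mul]

end Construction

/-- [CHAIN] -/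
theorem chain : ChainStatement := by
  classical
  intro Γ _ S A X _ N c hc hBC μ hμ1 hμ hμg
  obtain ⟨k₀, k, hk₀, hk, h1, hk1, hk2⟩ := hBC
  let k' : ∀ m : ℕ, Bdd (S.X (m + 1)) →ₗ[ℝ] Bdd (S.X m) := fun m =>
    if m ≤ N then k m else 0
  have hk' : ∀ m f C, Bdd.Le f C → Bdd.Le (k' m f) (c * C) := by
    intro m f C hf
    by_cases hm : m ≤ N
    · have : k' m = k m := if_pos hm
      rw [this]
      exact hk m hm f C hf
    · have : k' m = 0 := if_neg hm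
      rw [this]
      intro x
      have h2 : |((0 : Bdd (S.X (m + 1)) →ₗ[ℝ] Bdd (S.X m)) f).1 x| = 0 := by
        change |(0 : ℝ)| = 0
        simp
      rw [h2]
      by_cases hne : Nonempty (S.X (m + 1))
      · obtain ⟨y⟩ := hne
        exact mul_nonneg hc ((abs_nonneg _).trans (hf y))
      · exact absurd ⟨S.map (OrderHom.const _ 0) x⟩ hne
  refine ⟨fun m => (chainA A k₀ hk₀ k' hk' μ hμ m).1, ?_, ?_, ?_, ?_⟩
  · intro m _ f C hf
    exact (chainA A k₀ hk₀ k' hk' μ hμ m).2 f C hf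
  · apply Subtype.ext
    funext u
    exact chainA_const A k₀ hk₀ k' hk' μ hμ hμ1 h1 1 u
  · intro m _ g f u
    exact chainA_equiv A k₀ hk₀ k' hk' μ hμ hμg m g f u
  · intro m hm f
    refine chainA_delta A k₀ hk₀ k' hk' μ hμ hμ1 h1 hμg N ?_ ?_ m hm f
    · intro f
      have : k' 0 = k 0 := if_pos (Nat.zero_le _)
      rw [this]
      exact hk1 f
    · intro m hm f
      have e1 : k' m = k m := if_pos hm.le
      have e2 : k' (m + 1) = k (m + 1) := if_pos hm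
      rw [e1, e2]
      exact hk2 m hm f

end

end Pool.Agent.Lib.MP_72b724_gt.H80
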