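import Pool.Agent.Lib.MP_72b724_gt.Interfaces

/-!
# MP_72b724_gt, module HAT: the combinatorial homotopy addition theorem
-/

namespace Pool.Agent.Lib.MP_72b724_gt.H80

section Basic

variable {X : Type}

/-- The row `l` of a labelling. -/
def row (y : ℕ → ℕ → X) (l : ℕ) : ℕ → X := fun i => y l (if i < l then i else i + 1)

/-- The data of the homotopy addition theorem, with sequences instead of tuples. -/
structure Hat (N : ℕ) (e : X) (R : (ℕ → X) → Prop) : Prop where
  loc : ∀ x x' : ℕ → X, (∀ i < N, x i = x' i) → R x → R x'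
  fill : ∀ i < N, ∀ x : ℕ → X, ∃ a, R (Function.update x i a)
  rows : ∀ y : ℕ → ℕ → X, (∀ i j, y i j = y j i) → ∀ j₀ < N + 1,
    (∀ j < N + 1, j ≠ j₀ → R (row y j)) → R (row y j₀)
  deg : ∀ i, i + 1 < N → ∀ x : X, R (fun j => if j = i ∨ j = i + 1 then x else e)

/-- The labelling with rows `p`, `q` at `a`, `a + 1`. -/
def lab (a : ℕ) (p q : ℕ → X) (z : ℕ → ℕ → X) : ℕ → ℕ → X := fun i j =>
  if i = a then (if j = a + 1 then p a else if j < a then p j else p (j - 1))
  else if i = a + 1 then (if j = a then p a else if j < a then q j else q (j - 1))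
  else if j = a then (if i < a then p i else p (i - 1))
  else if j = a + 1 then (if i < a then q i else q (i - 1))
  else z i j

theorem lab_symm (a : ℕ) (p q : ℕ → X) (z : ℕ → ℕ → X) (hz : ∀ i j, z i j = z j i) (i j : ℕ) :
    lab a p q z i j = lab a p q z j i := by
  unfold lab
  by_cases h1 : i = a
  · subst h1
    by_cases h2 : j = i
    · subst h2; rfl
    · by_cases h3 : j = i + 1
      · subst h3; simp
      · simp [h2, h3]
  · by_cases h1' : i = a + 1
    · subst h1'
      by_cases h2 : j = a
      · subst h2; simp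
      · by_cases h3 : j = a + 1
        · subst h3; simp
        · simp [h2, h3]
    · by_cases h2 : j = a
      · subst h2; simp [h1, h1']
      · by_cases h3 : j = a + 1
        · subst h3; simp [h1, h1']
        · simp [h1, h1', h2, h3, hz i j]

theorem row_lab_a (a : ℕ) (p q : ℕ → X) (z : ℕ → ℕ → X) : row (lab a p q z) a = p := by
  funext i
  unfold row lab
  rcases lt_trichotomy i a with h | h | h
  · have h2 : ¬ i = a + 1 := by omega
    simp [h, h2]
  · subst h; simp
  · have h1 : ¬ i < a := by omega
    have h2 : ¬ i = a := by omega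
    have h3 : ¬ i + 1 < a := by omega
    simp [h1, h2, h3]

theorem row_lab_a1 (a : ℕ) (p q : ℕ → X) (z : ℕ → ℕ → X) (h : p a = q a) :
    row (lab a p q z) (a + 1) = q := by
  funext i
  unfold row lab
  rcases lt_trichotomy i a with h' | h' | h'
  · have h2 : i < a + 1 := by omega
    have h3 : ¬ i = a := by omega
    simp [h', h2, h3]
  · subst h'; simp [h]
  · have h1 : ¬ i < a + 1 := by omega
    have h3 : ¬ i + 1 < a := by omega
    have h4 : ¬ i + 1 = a := by omega
    simp [h1, h3, h4]

theorem row_lab_lt (a : ℕ) (p q : ℕ → X) (z : ℕ → ℕ → X) (l : ℕ) (hl : l < a) :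
    row (lab a p q z) l = fun i => if i + 1 = a then p l else if i = a then q l else
      z l (if i < l then i else i + 1) := by
  funext i
  unfold row lab
  have h1 : ¬ l = a := by omega
  have h2 : ¬ l = a + 1 := by omega
  by_cases h3 : i + 1 = a
  · have h4 : ¬ i < l := by omega
    simp [h1, h2, h3, h4, hl]
  · by_cases h5 : i = a
    · subst h5
      have h4 : ¬ i < l := by omega
      simp [h1, h2, h4, hl]
    · by_cases h6 : i < l
      · have h7 : ¬ i = a + 1 := by omega
        simp [h1, h2, h3, h5, h6, h7]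
      · have h7 : ¬ i + 1 = a + 1 := by omega
        simp [h1, h2, h3, h5, h6]

theorem row_lab_gt (a : ℕ) (p q : ℕ → X) (z : ℕ → ℕ → X) (l : ℕ) (hl : a + 1 < l) :
    row (lab a p q z) l = fun i => if i = a then p (l - 1) else if i = a + 1 then q (l - 1) else
      z l (if i < l then i else i + 1) := by
  funext i
  unfold row lab
  have h1 : ¬ l = a := by omega
  have h2 : ¬ l = a + 1 := by omega
  have h8 : ¬ l < a := by omega
  by_cases h3 : i = a
  · have h4 : i < l := by omega
    subst h3
    simp [h1, h2, h4, h8]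
  · by_cases h5 : i = a + 1
    · subst h5
      simp [h1, h2, hl, h8]
    · by_cases h6 : i < l
      · simp [h1, h2, h3, h5, h6]
      · have h7 : ¬ i + 1 = a := by omega
        have h9 : ¬ i + 1 = a + 1 := by omega
        simp [h1, h2, h3, h5, h6, h7]

variable {N : ℕ} {e : X} {R : (ℕ → X) → Prop}

/-- The general move. -/
theorem Hat.pair (H : Hat N e R) (a : ℕ) (ha : a < N) (p q : ℕ → X) (z : ℕ → ℕ → X)
    (hz : ∀ i j, z i j = z j i) (hpq : p a = q a)
    (hr : ∀ l < N + 1, l ≠ a → l ≠ a + 1 → R (row (lab a p q z) l)) : R p ↔ R q := by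
  constructor
  · intro h
    have := H.rows _ (lab_symm a p q z hz) (a + 1) (by omega) (by
      intro j hj hj'
      by_cases hja : j = a
      · subst hja; rw [row_lab_a]; exact h
      · exact hr j hj hja hj')
    rwa [row_lab_a1 a p q z hpq] at this
  · intro h
    have := H.rows _ (lab_symm a p q z hz) a (by omega) (by
      intro j hj hj'
      by_cases hja : j = a + 1
      · subst hja; rw [row_lab_a1 a p q z hpq]; exact h
      · exact hr j hj hj' hja)
    rwa [row_lab_a] at this

/-- The relation `A j x x'`. -/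
def A (e : X) (R : (ℕ → X) → Prop) (j : ℕ) (x x' : X) : Prop :=
  R (fun i => if i = j then x else if i = j + 1 then x' else e)

theorem Hat.A_refl (H : Hat N e R) (j : ℕ) (hj : j + 1 < N) (x : X) : A e R j x x := by
  refine H.loc _ _ ?_ (H.deg j hj x)
  intro i _
  by_cases h1 : i = j
  · simp [h1]
  · by_cases h2 : i = j + 1
    · simp [h2]
    · simp [h1, h2]

theorem row_const_lt (a : ℕ) (p q : ℕ → X) (l : ℕ) (hl : l < a) :
    R (row (lab a p q (fun _ _ => e)) l) ↔ A e R (a - 1) (p l) (q l) := by
  rw [row_lab_lt a p q _ l hl]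
  unfold A
  have : (fun i => if i + 1 = a then p l else if i = a then q l else e) =
      fun i => if i = a - 1 then p l else if i = a - 1 + 1 then q l else e := by
    funext i
    have h1 : (i + 1 = a) ↔ (i = a - 1) := by omega
    have h2 : (i = a) ↔ (i = a - 1 + 1) := by omega
    simp only [h1, h2]
  rw [this]

theorem row_const_gt (a : ℕ) (p q : ℕ → X) (l : ℕ) (hl : a + 1 < l) :
    R (row (lab a p q (fun _ _ => e)) l) ↔ A e R a (p (l - 1)) (q (l - 1)) := by
  rw [row_lab_gt a p q _ l hl]
  rfl

/-- Replacing one entry. -/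
theorem Hat.repl (H : Hat N e R) (i j : ℕ) (hi : i < N) (hj : j + 1 < N) (p : ℕ → X) (b : X)
    (hp : R p) : R (Function.update p i b) ↔ A e R j (p i) b := by
  -- choose the pair
  by_cases hij : j < i
  · -- `a = j`
    have hpa : p j = Function.update p i b j := by
      rw [Function.update_of_ne (by omega)]
    constructor
    · intro hq
      have := H.rows _ (lab_symm j p (Function.update p i b) (fun _ _ => e) (fun _ _ => rfl))
        (i + 1) (by omega) (by
          intro l hl hl'
          by_cases h1 : l = j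
          · subst h1; rw [row_lab_a]; exact hp
          · by_cases h2 : l = j + 1
            · subst h2; rw [row_lab_a1 _ _ _ _ hpa]; exact hq
            · by_cases h3 : l < j
              · rw [row_const_lt (e := e) (R := R) _ _ _ _ h3, Function.update_of_ne (by omega)]
                exact H.A_refl _ (by omega) _
              · rw [row_const_gt (e := e) (R := R) _ _ _ _ (by omega), Function.update_of_ne (by omega)]
                exact H.A_refl _ (by omega) _)
      rw [row_const_gt (e := e) (R := R) _ _ _ _ (by omega)] at this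
      simpa using this
    · intro hA
      have := H.rows _ (lab_symm j p (Function.update p i b) (fun _ _ => e) (fun _ _ => rfl))
        (j + 1) (by omega) (by
          intro l hl hl'
          by_cases h1 : l = j
          · subst h1; rw [row_lab_a]; exact hp
          · by_cases h3 : l < j
            · rw [row_const_lt (e := e) (R := R) _ _ _ _ h3, Function.update_of_ne (by omega)]
              exact H.A_refl _ (by omega) _
            · rw [row_const_gt (e := e) (R := R) _ _ _ _ (by omega)]
              by_cases h4 : l = i + 1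
              · subst h4; simpa using hA
              · rw [Function.update_of_ne (by omega)]
                exact H.A_refl _ (by omega) _)
      rwa [row_lab_a1 _ _ _ _ hpa] at this
  · -- `a = j + 1`
    have hpa : p (j + 1) = Function.update p i b (j + 1) := by
      rw [Function.update_of_ne (by omega)]
    constructor
    · intro hq
      have := H.rows _ (lab_symm (j + 1) p (Function.update p i b) (fun _ _ => e)
        (fun _ _ => rfl)) i (by omega) (by
          intro l hl hl'
          by_cases h1 : l = j + 1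
          · subst h1; rw [row_lab_a]; exact hp
          · by_cases h2 : l = j + 1 + 1
            · subst h2; rw [row_lab_a1 _ _ _ _ hpa]; exact hq
            · by_cases h3 : l < j + 1
              · rw [row_const_lt (e := e) (R := R) _ _ _ _ h3, Function.update_of_ne (by omega)]
                exact H.A_refl _ (by omega) _
              · rw [row_const_gt (e := e) (R := R) _ _ _ _ (by omega), Function.update_of_ne (by omega)]
                exact H.A_refl _ (by omega) _)
      rw [row_const_lt (e := e) (R := R) _ _ _ _ (by omega)] at this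
      simpa using this
    · intro hA
      have := H.rows _ (lab_symm (j + 1) p (Function.update p i b) (fun _ _ => e)
        (fun _ _ => rfl)) (j + 1 + 1) (by omega) (by
          intro l hl hl'
          by_cases h1 : l = j + 1
          · subst h1; rw [row_lab_a]; exact hp
          · by_cases h3 : l < j + 1
            · rw [row_const_lt (e := e) (R := R) _ _ _ _ h3]
              by_cases h4 : l = i
              · subst h4; simpa using hA
              · rw [Function.update_of_ne (by omega)]
                exact H.A_refl _ (by omega) _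
            · rw [row_const_gt (e := e) (R := R) _ _ _ _ (by omega), Function.update_of_ne (by omega)]
              exact H.A_refl _ (by omega) _)
      rwa [row_lab_a1 _ _ _ _ hpa] at this

/-- A member of `R` with a prescribed entry. -/
theorem Hat.exists_with (H : Hat N e R) (hN : 2 ≤ N) (i : ℕ) (x : X) :
    ∃ p : ℕ → X, R p ∧ p i = x := by
  by_cases hi : i = 0
  · obtain ⟨a, ha⟩ := H.fill 1 (by omega) (fun _ => x)
    exact ⟨_, ha, by rw [Function.update_of_ne (by omega)]⟩
  · obtain ⟨a, ha⟩ := H.fill 0 (by omega) (fun _ => x)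
    exact ⟨_, ha, by rw [Function.update_of_ne (by omega)]⟩

theorem Hat.A_indep (H : Hat N e R) (j j' : ℕ) (hj : j + 1 < N) (hj' : j' + 1 < N) (x x' : X) :
    A e R j x x' ↔ A e R j' x x' := by
  obtain ⟨p, hp, hpx⟩ := H.exists_with (by omega) 0 x
  have h1 := H.repl 0 j (by omega) hj p x' hp
  have h2 := H.repl 0 j' (by omega) hj' p x' hp
  rw [hpx] at h1 h2
  exact h1.symm.trans h2

theorem Hat.A_symm (H : Hat N e R) (j : ℕ) (hj : j + 1 < N) (x x' : X) (h : A e R j x x') :
    A e R j x' x := by
  obtain ⟨p, hp, hpx⟩ := H.exists_with (by omega) 0 x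
  subst hpx
  have h1 := (H.repl 0 j (by omega) hj p x' hp).2 h
  have h2 := H.repl 0 j (by omega) hj _ (p 0) h1
  simp only [Function.update_self, Function.update_idem, Function.update_eq_self] at h2
  exact h2.1 hp

theorem Hat.A_trans (H : Hat N e R) (j : ℕ) (hj : j + 1 < N) (x x' x'' : X)
    (h : A e R j x x') (h' : A e R j x' x'') : A e R j x x'' := by
  obtain ⟨p, hp, hpx⟩ := H.exists_with (by omega) 0 x
  subst hpx
  have h1 := (H.repl 0 j (by omega) hj p x' hp).2 h
  have h2 := (H.repl 0 j (by omega) hj _ x'' h1)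
  simp only [Function.update_self, Function.update_idem] at h2
  exact (H.repl 0 j (by omega) hj p x'' hp).1 (h2.2 h')

/-- `R` is invariant under the relation. -/
theorem Hat.inv (H : Hat N e R) (hN : 2 ≤ N) (x x' : ℕ → X)
    (h : ∀ i < N, A e R 0 (x i) (x' i)) (hx : R x) : R x' := by
  have key : ∀ m : ℕ, R (fun i => if i < m ∧ i < N then x' i else x i) := by
    intro m
    induction m with
    | zero => simpa using hx
    | succ m ih =>
      by_cases hm : m < N
      · have h1 := H.repl m 0 hm (by omega) _ (x' m) ih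
        have h2 : Function.update (fun i => if i < m ∧ i < N then x' i else x i) m (x' m) =
            fun i => if i < m + 1 ∧ i < N then x' i else x i := by
          funext i
          by_cases hi : i = m
          · subst hi; simp [hm]
          · rw [Function.update_of_ne hi]
            have : (i < m ∧ i < N) ↔ (i < m + 1 ∧ i < N) := by omega
            simp only [this]
        rw [h2] at h1
        apply h1.2
        simpa using h m hm
      · refine H.loc _ _ ?_ ih
        intro i hi
        have : (i < m ∧ i < N) ↔ (i < m + 1 ∧ i < N) := by omega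
        simp only [this]
  refine H.loc _ _ ?_ (key N)
  intro i hi
  simp [hi]

end Basic

section Group

variable {X : Type} {N : ℕ} {e : X} {R : (ℕ → X) → Prop}

/-- Three entries at `a`, `a + 1`, `a + 2`. -/
def T3 (e : X) (a : ℕ) (x y z : X) : ℕ → X := fun i =>
  if i = a then x else if i = a + 1 then y else if i = a + 2 then z else e

/-- Four entries at `0`, `1`, `2`, `3`. -/
def T4 (e : X) (x y z w : X) : ℕ → X := fun i =>
  if i = 0 then x else if i = 1 then y else if i = 2 then z else if i = 3 then w else e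

/-- The symmetric labelling with one edge. -/
def ed (e : X) (u v : ℕ) (t : X) : ℕ → ℕ → X := fun i j =>
  if (i = u ∧ j = v) ∨ (i = v ∧ j = u) then t else e

theorem ed_symm (u v : ℕ) (t : X) (i j : ℕ) : ed e u v t i j = ed e u v t j i := by
  unfold ed
  have : ((i = u ∧ j = v) ∨ (i = v ∧ j = u)) ↔ ((j = u ∧ i = v) ∨ (j = v ∧ i = u)) := by tauto
  simp only [this]

/-- The data with uniqueness of the fillers. -/
structure HatU (N : ℕ) (e : X) (R : (ℕ → X) → Prop) : Prop extends Hat N e R where
  uniq : ∀ i < N, ∀ (x : ℕ → X) (a b : X), R (Function.update x i a) →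
    R (Function.update x i b) → a = b

/-- The move at the pair `a`, `a + 1` with the edge `a + 2`, `a + 3`. -/
theorem HatU.move (H : HatU N e R) (a : ℕ) (ha : a + 2 < N) (p q : ℕ → X) (t : X)
    (hpq : ∀ i < N, i ≠ a + 1 → i ≠ a + 2 → q i = p i)
    (h1 : R (T3 e a (p (a + 1)) (q (a + 1)) t)) (h2 : R (T3 e a (p (a + 2)) (q (a + 2)) t)) :
    R p ↔ R q := by
  refine H.toHat.pair a (by omega) p q (ed e (a + 2) (a + 3) t) (ed_symm _ _ _)
    (hpq a (by omega) (by omega) (by omega)).symm ?_
  intro l hl hla hla1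
  by_cases h3 : l < a
  · rw [row_lab_lt _ _ _ _ _ h3, hpq l (by omega) (by omega) (by omega)]
    refine H.toHat.loc _ _ ?_ (H.toHat.A_refl (a - 1) (by omega) (p l))
    intro i hi
    have e1 : (i = a - 1) ↔ (i + 1 = a) := by omega
    have e2 : (i = a - 1 + 1) ↔ (i = a) := by omega
    simp only [e1, e2, ed]
    have e3 : ¬ ((l = a + 2 ∧ (if i < l then i else i + 1) = a + 3) ∨
      (l = a + 3 ∧ (if i < l then i else i + 1) = a + 2)) := by omega
    simp only [e3, if_false]
  · rw [row_lab_gt _ _ _ _ _ (by omega)]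
    by_cases h4 : l = a + 2
    · subst h4
      refine H.toHat.loc _ _ ?_ h1
      intro i hi
      simp only [T3, ed]
      have e0 : a + 2 - 1 = a + 1 := by omega
      rw [e0]
      by_cases i0 : i = a
      · simp [i0]
      by_cases i1 : i = a + 1
      · simp [i1]
      by_cases i2 : i = a + 2
      · simp [i2]
      have e3 : ¬ ((a + 2 = a + 2 ∧ (if i < a + 2 then i else i + 1) = a + 3) ∨
        (a + 2 = a + 3 ∧ (if i < a + 2 then i else i + 1) = a + 2)) := by split_ifs <;> omega
      rw [if_neg i0, if_neg i1, if_neg i2, if_neg i0, if_neg i1]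
      exact (if_neg (by simpa using e3)).symm
    by_cases h5 : l = a + 3
    · subst h5
      refine H.toHat.loc _ _ ?_ h2
      intro i hi
      simp only [T3, ed]
      have e0 : a + 3 - 1 = a + 2 := by omega
      rw [e0]
      by_cases i0 : i = a
      · simp [i0]
      by_cases i1 : i = a + 1
      · simp [i1]
      by_cases i2 : i = a + 2
      · simp [i2]
      have e3 : ¬ ((a + 3 = a + 2 ∧ (if i < a + 3 then i else i + 1) = a + 3) ∨
        (a + 3 = a + 3 ∧ (if i < a + 3 then i else i + 1) = a + 2)) := by split_ifs <;> omega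
      rw [if_neg i0, if_neg i1, if_neg i2, if_neg i0, if_neg i1]
      exact (if_neg (by simpa using e3)).symm
    · rw [hpq (l - 1) (by omega) (by omega) (by omega)]
      refine H.toHat.loc _ _ ?_ (H.toHat.A_refl a (by omega) (p (l - 1)))
      intro i hi
      simp only [ed]
      have e3 : ¬ ((l = a + 2 ∧ (if i < l then i else i + 1) = a + 3) ∨
        (l = a + 3 ∧ (if i < l then i else i + 1) = a + 2)) := by omega
      simp only [e3, if_false]

/-- The move at the pair `2`, `3` with the edge `0`, `1`. -/
theorem HatU.move' (H : HatU N e R) (hN : 4 ≤ N) (p q : ℕ → X) (t : X)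
    (hpq : ∀ i < N, i ≠ 0 → i ≠ 1 → q i = p i)
    (h1 : R (T3 e 0 t (p 0) (q 0))) (h2 : R (T3 e 0 t (p 1) (q 1))) : R p ↔ R q := by
  refine H.toHat.pair 2 (by omega) p q (ed e 0 1 t) (ed_symm _ _ _)
    (hpq 2 (by omega) (by omega) (by omega)).symm ?_
  intro l hl hla hla1
  by_cases h4 : l = 0
  · subst h4
    rw [row_lab_lt _ _ _ _ _ (by omega)]
    refine H.toHat.loc _ _ ?_ h1
    intro i hi
    simp only [T3, ed]
    rcases i with _ | _ | _ | i <;> simp
  by_cases h5 : l = 1
  · subst h5
    rw [row_lab_lt _ _ _ _ _ (by omega)]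
    refine H.toHat.loc _ _ ?_ h2
    intro i hi
    simp only [T3, ed]
    rcases i with _ | _ | _ | i <;> simp
  · rw [row_lab_gt _ _ _ _ _ (by omega), hpq (l - 1) (by omega) (by omega) (by omega)]
    refine H.toHat.loc _ _ ?_ (H.toHat.A_refl 2 (by omega) (p (l - 1)))
    intro i hi
    simp only [ed]
    have e3 : ¬ ((l = 0 ∧ (if i < l then i else i + 1) = 1) ∨
      (l = 1 ∧ (if i < l then i else i + 1) = 0)) := by omega
    simp only [e3, if_false]

/-- The move at the pair `1`, `2` with the edge `0`, `3`. -/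
theorem HatU.move3 (H : HatU N e R) (hN : 4 ≤ N) (p q : ℕ → X) (t : X)
    (hpq : ∀ i < N, i ≠ 0 → i ≠ 2 → q i = p i)
    (h1 : R (T3 e 0 (p 0) (q 0) t)) (h2 : R (T3 e 0 t (p 2) (q 2))) : R p ↔ R q := by
  refine H.toHat.pair 1 (by omega) p q (ed e 0 3 t) (ed_symm _ _ _)
    (hpq 1 (by omega) (by omega) (by omega)).symm ?_
  intro l hl hla hla1
  by_cases h4 : l = 0
  · subst h4
    rw [row_lab_lt _ _ _ _ _ (by omega)]
    refine H.toHat.loc _ _ ?_ h1
    intro i hi
    simp only [T3, ed]
    rcases i with _ | _ | _ | i <;> simp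
  by_cases h5 : l = 3
  · subst h5
    rw [row_lab_gt _ _ _ _ _ (by omega)]
    refine H.toHat.loc _ _ ?_ h2
    intro i hi
    simp only [T3, ed]
    rcases i with _ | _ | _ | i
    · simp
    · simp
    · simp
    · have h7 : ¬ (i + 1 + 1 + 1 < 3) := by omega
      simp [h7]
  · rw [row_lab_gt _ _ _ _ _ (by omega), hpq (l - 1) (by omega) (by omega) (by omega)]
    refine H.toHat.loc _ _ ?_ (H.toHat.A_refl 1 (by omega) (p (l - 1)))
    intro i hi
    simp only [ed]
    have e3 : ¬ ((l = 0 ∧ (if i < l then i else i + 1) = 3) ∨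
      (l = 3 ∧ (if i < l then i else i + 1) = 0)) := by omega
    simp only [e3, if_false]

theorem HatU.uniq' (H : HatU N e R) (i : ℕ) (hi : i < N) (p q : ℕ → X)
    (h : ∀ j < N, j ≠ i → p j = q j) (hp : R p) (hq : R q) : p i = q i := by
  refine H.uniq i hi p _ _ (by simpa using hp) (H.toHat.loc _ _ ?_ hq)
  intro j hj
  by_cases hji : j = i
  · subst hji; simp
  · rw [Function.update_of_ne hji, h j hj hji]

theorem HatU.exists_add (H : HatU N e R) (hN : 4 ≤ N) (a b : X) : ∃ c, R (T3 e 0 a c b) := by
  obtain ⟨c, hc⟩ := H.toHat.fill 1 (by omega) (T3 e 0 a e b)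
  refine ⟨c, H.toHat.loc _ _ ?_ hc⟩
  intro i _
  rcases i with _ | _ | _ | i <;> simp [T3, Function.update]

theorem HatU.A_iff (H : HatU N e R) (j : ℕ) (hj : j + 1 < N) (x x' : X) :
    A e R j x x' ↔ x' = x := by
  constructor
  · intro h
    have := H.uniq' (j + 1) hj _ _ (by
      intro i hi hij
      by_cases h1 : i = j
      · subst h1; simp
      · simp [h1, hij]) h (H.toHat.A_refl j hj x)
    simpa using this
  · rintro rfl
    exact H.toHat.A_refl j hj _

end Group

section AG

variable {X : Type} [AddGroup X] {N : ℕ} {R : (ℕ → X) → Prop}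

theorem m1 (H : HatU N (0 : X) R) (hN : 4 ≤ N)
    (hadd : ∀ a b c, R (T3 (0 : X) 0 a c b) ↔ c = a + b) (c p q r t : X) :
    R (T4 0 c p q r) ↔ R (T4 0 c (p + t) (q + t) r) := by
  refine H.move 0 (by omega) _ _ t ?_ ?_ ?_
  · intro i _ h1 h2
    rcases i with _ | _ | _ | i <;> simp [T4] at h1 h2 ⊢
  · rw [hadd]; simp [T4]
  · rw [hadd]; simp [T4]

theorem m5 (H : HatU N (0 : X) R) (hN : 4 ≤ N)
    (hadd : ∀ a b c, R (T3 (0 : X) 0 a c b) ↔ c = a + b) (c p q r t : X) :
    R (T4 0 (t + p) (t + q) c r) ↔ R (T4 0 p q c r) := by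
  refine H.move' hN _ _ t ?_ ?_ ?_
  · intro i _ h1 h2
    rcases i with _ | _ | _ | i <;> simp [T4] at h1 h2 ⊢
  · rw [hadd]; simp [T4]
  · rw [hadd]; simp [T4]

theorem m3 (H : HatU N (0 : X) R) (hN : 4 ≤ N)
    (hadd : ∀ a b c, R (T3 (0 : X) 0 a c b) ↔ c = a + b) (p0 c p2 p3 t : X) :
    R (T4 0 p0 c p2 p3) ↔ R (T4 0 (p0 + t) c (-t + p2) p3) := by
  refine H.move3 hN _ _ t ?_ ?_ ?_
  · intro i _ h1 h2
    rcases i with _ | _ | _ | i <;> simp [T4] at h1 h2 ⊢
  · rw [hadd]; simp [T4]
  · rw [hadd]; simp [T4]

theorem t4_last (H : HatU N (0 : X) R) (hN : 4 ≤ N) (a b c d d' : X)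
    (h : R (T4 0 a b c d)) (h' : R (T4 0 a b c d')) : d = d' := by
  have := H.uniq' 3 (by omega) _ _ (by
    intro j _ hj
    rcases j with _ | _ | _ | _ | j <;> simp [T4] at hj ⊢) h h'
  simpa [T4] using this

theorem t4_diag (H : HatU N (0 : X) R) (hN : 4 ≤ N) (a : X) : R (T4 0 0 0 a a) := by
  refine H.toHat.loc _ _ ?_ (H.toHat.deg 2 (by omega) a)
  intro i _
  rcases i with _ | _ | _ | _ | i <;> simp [T4]

theorem t4_aux (H : HatU N (0 : X) R) (hN : 4 ≤ N)
    (hadd : ∀ a b c, R (T3 (0 : X) 0 a c b) ↔ c = a + b) (x r : X) :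
    R (T4 0 0 x 0 r) ↔ r = -x := by
  have h1 : R (T4 0 0 x 0 (-x)) := by
    have := (m1 H hN hadd 0 0 (-x) (-x) x).1 (t4_diag H hN (-x))
    simpa using this
  constructor
  · intro h
    exact t4_last H hN _ _ _ _ _ h h1
  · rintro rfl
    exact h1

theorem t4_iff (H : HatU N (0 : X) R) (hN : 4 ≤ N)
    (hadd : ∀ a b c, R (T3 (0 : X) 0 a c b) ↔ c = a + b) (c p q r : X) :
    R (T4 0 c p q r) ↔ r = q - p + c := by
  rw [← m5 H hN hadd q c p r (-c), neg_add_cancel, m1 H hN hadd 0 (-c + p) q r (-q),
    add_neg_cancel, t4_aux H hN hadd]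
  simp only [neg_add_rev, neg_neg, sub_eq_add_neg, add_assoc]

theorem comm_of (H : HatU N (0 : X) R) (hN : 4 ≤ N)
    (hadd : ∀ a b c, R (T3 (0 : X) 0 a c b) ↔ c = a + b) (a b : X) : a + b = b + a := by
  have h1 : R (T4 0 0 0 a a) := t4_diag H hN a
  rw [m3 H hN hadd 0 0 a a (-b), t4_iff H hN hadd] at h1
  simp only [neg_neg, sub_zero, zero_add] at h1
  -- `a = b + a + -b`
  have h2 : a + b = b + a + -b + b := by rw [← h1]
  simpa [add_assoc] using h2

end AG

section ACG

variable {X : Type} [AddCommGroup X] {N : ℕ} {R : (ℕ → X) → Prop}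

theorem q_all (H : HatU N (0 : X) R) (hN : 4 ≤ N)
    (hadd : ∀ a b c, R (T3 (0 : X) 0 a c b) ↔ c = a + b) (a : ℕ) (ha : a + 2 < N) :
    ∀ p q t : X, R (T3 (0 : X) a p q t) ↔ q = p + t := by
  induction a with
  | zero => intro p q t; exact hadd p t q
  | succ a ih =>
    intro p q t
    have ih' := ih (by omega)
    have h1 : R (T3 (0 : X) (a + 1) p q t) ↔ R (T3 (0 : X) (a + 1) 0 (q - p) t) := by
      refine H.move a (by omega) _ _ (-p) ?_ ?_ ?_
      · intro i _ h1 h2
        have h2' : ¬ i = a + 1 + 1 := by omega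
        simp [T3, h1, h2']
      · rw [ih']; simp [T3]
      · rw [ih']; simp [T3]; abel
    rw [h1]
    have h2 : R (T3 (0 : X) (a + 1) 0 (q - p) t) ↔ A 0 R (a + 2) (q - p) t := by
      unfold A
      have : T3 (0 : X) (a + 1) 0 (q - p) t =
          fun i => if i = a + 2 then q - p else if i = a + 2 + 1 then t else 0 := by
        funext i
        unfold T3
        by_cases i0 : i = a + 1
        · subst i0; simp
        · by_cases i1 : i = a + 2
          · subst i1; simp
          · by_cases i2 : i = a + 3
            · subst i2; simp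
            · have i2' : ¬ i = a + 1 + 2 := by omega
              simp [i0, i1, i2']
      rw [this]
    rw [h2, H.A_iff _ (by omega)]
    constructor
    · intro h; rw [h]; abel
    · intro h; rw [h]; abel

theorem elim_step (H : HatU N (0 : X) R) (hN : 4 ≤ N)
    (hadd : ∀ a b c, R (T3 (0 : X) 0 a c b) ↔ c = a + b) (m : ℕ) (hm : m + 1 < N)
    (x : ℕ → X) :
    R x ↔ R (fun i => x i + (if i = m then - x m else 0) + (if i = m + 1 then - x m else 0)) := by
  rcases m with _ | a
  · refine H.move' hN _ _ (x 0) ?_ ?_ ?_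
    · intro i _ h1 h2
      simp [h1, h2]
    · rw [hadd]; simp
    · rw [hadd]; simp
  · refine H.move a (by omega) _ _ (-x (a + 1)) ?_ ?_ ?_
    · intro i _ h1 h2
      have h2' : ¬ i = a + 1 + 1 := by omega
      simp [h1, h2']
    · rw [q_all H hN hadd a (by omega)]; simp
    · rw [q_all H hN hadd a (by omega)]; simp

theorem elim (H : HatU N (0 : X) R) (hN : 4 ≤ N)
    (hadd : ∀ a b c, R (T3 (0 : X) 0 a c b) ↔ c = a + b) (x : ℕ → X) (m : ℕ) (hm : m < N) :
    ∃ x' : ℕ → X, (∀ i < m, x' i = 0) ∧ (R x ↔ R x') ∧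
      ∑ i ∈ Finset.range N, ((-1 : ℤ) ^ i) • x' i = ∑ i ∈ Finset.range N, ((-1 : ℤ) ^ i) • x i := by
  induction m with
  | zero => exact ⟨x, by simp, Iff.rfl, rfl⟩
  | succ m ih =>
    obtain ⟨x', h0, h1, h2⟩ := ih (by omega)
    refine ⟨_, ?_, h1.trans (elim_step H hN hadd m hm x'), ?_⟩
    · intro i hi
      by_cases him : i = m
      · subst him; simp
      · have h3 : ¬ i = m + 1 := by omega
        simp [him, h3, h0 i (by omega)]
    · rw [← h2]
      simp only [smul_add, Finset.sum_add_distrib, smul_ite, smul_zero, Finset.sum_ite_eq',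
        Finset.mem_range]
      rw [if_pos (by omega), if_pos (by omega), pow_succ]
      simp

theorem main_iff (H : HatU N (0 : X) R) (hN : 4 ≤ N)
    (hadd : ∀ a b c, R (T3 (0 : X) 0 a c b) ↔ c = a + b) (x : ℕ → X) :
    R x ↔ ∑ i ∈ Finset.range N, ((-1 : ℤ) ^ i) • x i = 0 := by
  obtain ⟨x', h0, h1, h2⟩ := elim H hN hadd x (N - 1) (by omega)
  rw [h1, ← h2]
  have hR0 : R (fun _ => 0) := by
    refine H.toHat.loc _ _ ?_ (H.toHat.deg 0 (by omega) 0)
    intro i _
    simp
  have h3 : ∑ i ∈ Finset.range N, ((-1 : ℤ) ^ i) • x' i = ((-1 : ℤ) ^ (N - 1)) • x' (N - 1) := by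
    apply Finset.sum_eq_single_of_mem (N - 1) (by simp; omega)
    intro i hi hi'
    rw [h0 i (by simp at hi; omega), smul_zero]
  rw [h3]
  have h4 : ((-1 : ℤ) ^ (N - 1)) • x' (N - 1) = 0 ↔ x' (N - 1) = 0 := by
    rcases neg_one_pow_eq_or ℤ (N - 1) with h | h <;> rw [h] <;> simp
  rw [h4]
  constructor
  · intro h
    exact H.uniq' (N - 1) (by omega) _ _ (by
      intro j hj hj'
      exact h0 j (by omega)) h hR0
  · intro h
    refine H.toHat.loc _ _ ?_ hR0
    intro i hi
    by_cases hi' : i = N - 1
    · subst hi'; exact h.symm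
    · exact (h0 i (by omega)).symm

end ACG

section Final

variable {X : Type} {N : ℕ} {e : X} {R : (ℕ → X) → Prop}

theorem HatU.main (H : HatU N e R) (hN : 4 ≤ N) :
    ∃ (_ : AddCommGroup X), ∀ x : ℕ → X, R x ↔
      ∑ i ∈ Finset.range N, ((-1 : ℤ) ^ i) • x i = 0 := by
  classical
  choose add hadd using H.exists_add hN
  have hadd' : ∀ a b c, R (T3 e 0 a c b) ↔ c = add a b := by
    intro a b c
    constructor
    · intro h
      have := H.uniq' 1 (by omega) _ _ (by
        intro j _ hj
        rcases j with _ | _ | _ | j <;> simp [T3] at hj ⊢) h (hadd a b)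
      simpa [T3] using this
    · rintro rfl
      exact hadd a b
  have hzl : ∀ a, add e a = a := by
    intro a
    refine ((hadd' e a a).1 ?_).symm
    refine H.toHat.loc _ _ ?_ (H.toHat.deg 1 (by omega) a)
    intro i _
    rcases i with _ | _ | _ | i <;> simp [T3]
  have hzr : ∀ a, add a e = a := by
    intro a
    refine ((hadd' a e a).1 ?_).symm
    refine H.toHat.loc _ _ ?_ (H.toHat.deg 0 (by omega) a)
    intro i _
    rcases i with _ | _ | _ | i <;> simp [T3]
  have hm1 : ∀ c p q r t, R (T4 e c p q r) → R (T4 e c (add p t) (add q t) r) := by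
    intro c p q r t h
    refine (H.move 0 (by omega) _ _ t ?_ ?_ ?_).1 h
    · intro i _ h1 h2
      rcases i with _ | _ | _ | i <;> simp [T4] at h1 h2 ⊢
    · rw [hadd']; simp [T4]
    · rw [hadd']; simp [T4]
  have hT : ∀ a b c : X, T4 e a b c e = T3 e 0 a b c := by
    intro a b c
    funext i
    rcases i with _ | _ | _ | _ | i <;> simp [T3, T4]
  have hassoc : ∀ a b c, add (add a b) c = add a (add b c) := by
    intro a b c
    have h1 : R (T4 e a (add a b) b e) := by rw [hT, hadd']
    have h2 := hm1 _ _ _ _ c h1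
    rwa [hT, hadd'] at h2
  have hneg : ∀ b, ∃ a, add a b = e := by
    intro b
    obtain ⟨a, ha⟩ := H.toHat.fill 0 (by omega) (T3 e 0 e e b)
    refine ⟨a, ((hadd' a b e).1 (H.toHat.loc _ _ ?_ ha)).symm⟩
    intro i _
    rcases i with _ | _ | _ | i <;> simp [T3, Function.update]
  choose neg hneg using hneg
  let i1 : Add X := ⟨add⟩
  let i2 : Zero X := ⟨e⟩
  let i3 : Neg X := ⟨neg⟩
  let g : AddGroup X := AddGroup.ofLeftAxioms hassoc hzl hneg
  have hadd2 : ∀ a b c : X, R (T3 (0 : X) 0 a c b) ↔ c = a + b := hadd'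
  have H' : HatU N (0 : X) R := H
  have hcomm : ∀ a b : X, a + b = b + a := comm_of H' hN hadd2
  let g' : AddCommGroup X := { g with add_comm := hcomm }
  exact ⟨g', main_iff H' hN hadd2⟩

/-- The setoid. -/
def Hat.setoid (H : Hat N e R) (hN : 2 ≤ N) : Setoid X where
  r := A e R 0
  iseqv := ⟨fun x => H.A_refl 0 (by omega) x, fun h => H.A_symm 0 (by omega) _ _ h,
    fun h h' => H.A_trans 0 (by omega) _ _ _ h h'⟩

theorem Hat.main (H : Hat N e R) (hN : 4 ≤ N) :
    ∃ (π : Type) (_ : AddCommGroup π) (κ : X → π), Function.Surjective κ ∧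
      ∀ x : ℕ → X, R x ↔ ∑ i ∈ Finset.range N, ((-1 : ℤ) ^ i) • κ (x i) = 0 := by
  classical
  let s : Setoid X := H.setoid (by omega)
  have hout : ∀ x : X, A e R 0 (Quotient.mk s x).out x := fun x => Quotient.mk_out x
  have hout' : ∀ x : X, A e R 0 x (Quotient.mk s x).out := fun x =>
    H.A_symm 0 (by omega) _ _ (hout x)
  have hinv : ∀ x x' : ℕ → X, (∀ i < N, A e R 0 (x i) (x' i)) → R x → R x' :=
    H.inv (by omega)
  let R' : (ℕ → Quotient s) → Prop := fun x => R (fun i => (x i).out)
  have H' : HatU N (Quotient.mk s e) R' := by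
    refine ⟨⟨?_, ?_, ?_, ?_⟩, ?_⟩
    · intro x x' h hx
      refine H.loc _ _ ?_ hx
      intro i hi
      rw [h i hi]
    · intro i hi x
      obtain ⟨a, ha⟩ := H.fill i hi (fun i => (x i).out)
      refine ⟨Quotient.mk s a, hinv _ _ ?_ ha⟩
      intro j hj
      by_cases hji : j = i
      · subst hji
        simp only [Function.update_self]
        exact hout' a
      · rw [Function.update_of_ne hji, Function.update_of_ne hji]
        exact H.A_refl 0 (by omega) _
    · intro y hy j₀ hj₀ h
      exact H.rows (fun i j => (y i j).out) (fun i j => by rw [hy i j]) j₀ hj₀ h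
    · intro i hi x
      refine hinv _ _ ?_ (H.deg i hi x.out)
      intro j hj
      by_cases h1 : j = i ∨ j = i + 1
      · simp only [h1, if_true]
        exact H.A_refl 0 (by omega) _
      · simp only [h1, if_false]
        exact hout' e
    · intro i hi x a b ha hb
      have h1 : R (Function.update (fun j => (x j).out) i a.out) := by
        refine H.loc _ _ ?_ ha
        intro j _
        by_cases hji : j = i
        · subst hji; simp
        · simp [Function.update_of_ne hji]
      have h2 : R (Function.update (fun j => (x j).out) i b.out) := by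
        refine H.loc _ _ ?_ hb
        intro j _
        by_cases hji : j = i
        · subst hji; simp
        · simp [Function.update_of_ne hji]
      have h3 := H.repl i 0 hi (by omega) _ b.out h1
      simp only [Function.update_self, Function.update_idem] at h3
      have h4 := h3.1 h2
      rw [← Quotient.out_eq a, ← Quotient.out_eq b]
      exact Quotient.sound h4
  obtain ⟨g, hg⟩ := H'.main hN
  refine ⟨Quotient s, g, Quotient.mk s, Quotient.mk_surjective, ?_⟩
  intro x
  have h1 := hg (fun i => Quotient.mk s (x i))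
  rw [← h1]
  constructor
  · exact hinv _ _ (fun i _ => hout' (x i))
  · exact hinv _ _ (fun i _ => hout (x i))

/-- [HAT] -/
theorem hat : HatStatement := by
  classical
  intro k hk X e R hfill hrows hdeg
  let R' : (ℕ → X) → Prop := fun x => R (fun i => x (i : ℕ))
  have H : Hat (k + 2) e R' := by
    refine ⟨?_, ?_, ?_, ?_⟩
    · intro x x' h hx
      have : (fun i : Fin (k + 2) => x (i : ℕ)) = fun i : Fin (k + 2) => x' (i : ℕ) := by
        funext i; exact h _ i.2
      show R _
      rw [← this]; exact hx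
    · intro i hi x
      obtain ⟨a, ha⟩ := hfill ⟨i, hi⟩ (fun i => x (i : ℕ))
      refine ⟨a, ?_⟩
      show R _
      have : (fun j : Fin (k + 2) => Function.update x i a (j : ℕ)) =
          Function.update (fun j : Fin (k + 2) => x (j : ℕ)) ⟨i, hi⟩ a := by
        funext j
        by_cases hj : (j : ℕ) = i
        · have : j = ⟨i, hi⟩ := Fin.ext hj
          subst this; simp
        · have : j ≠ ⟨i, hi⟩ := fun h => hj (by rw [h])
          rw [Function.update_of_ne this, Function.update_of_ne hj]
      rw [this]; exact ha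
    · intro y hy j₀ hj₀ h
      have key : ∀ j : Fin (k + 3), (fun i : Fin (k + 2) => y j (j.succAbove i)) =
          fun i : Fin (k + 2) => row y (j : ℕ) (i : ℕ) := by
        intro j
        funext i
        unfold row
        congr 1
        rw [Fin.succAbove]
        by_cases h : i.castSucc < j
        · have h' : (i : ℕ) < (j : ℕ) := h
          simp [h, h']
        · have h' : ¬ (i : ℕ) < (j : ℕ) := h
          simp [h, h']
      have := hrows (fun i j => y i j) (fun i j => hy i j) ⟨j₀, hj₀⟩ (by
        intro j hj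
        have hj2 : (j : ℕ) ≠ j₀ := fun h' => hj (Fin.ext h')
        have h3 := h j j.2 hj2
        show R _
        rw [key]; exact h3)
      have h4 := key ⟨j₀, hj₀⟩
      show R _
      simp only at h4
      rw [← h4]; exact this
    · intro i hi x
      have := hdeg ⟨i, by omega⟩ x
      show R _
      have h2 : (fun j : Fin (k + 2) => if (j : ℕ) = i ∨ (j : ℕ) = i + 1 then x else e) =
          fun j : Fin (k + 2) => if j = (⟨i, by omega⟩ : Fin (k + 1)).castSucc ∨
            j = (⟨i, by omega⟩ : Fin (k + 1)).succ then x else e := by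
        funext j
        have h3 : (j = (⟨i, by omega⟩ : Fin (k + 1)).castSucc) ↔ (j : ℕ) = i := by
          rw [Fin.ext_iff]; rfl
        have h4 : (j = (⟨i, by omega⟩ : Fin (k + 1)).succ) ↔ (j : ℕ) = i + 1 := by
          rw [Fin.ext_iff]; rfl
        simp only [h3, h4]
      rw [h2]; exact this
  obtain ⟨π, g, κ, hκ, hx⟩ := H.main (by omega)
  refine ⟨π, g, κ, hκ, ?_⟩
  intro x
  by_cases hX : Nonempty X
  · have h1 := hx (fun i => if h : i < k + 2 then x ⟨i, h⟩ else e)
    have h2 : R x ↔ R' (fun i => if h : i < k + 2 then x ⟨i, h⟩ else e) := by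
      show R x ↔ R _
      have : (fun i : Fin (k + 2) => if h : (i : ℕ) < k + 2 then x ⟨i, h⟩ else e) = x := by
        funext i
        simp
      rw [this]
    rw [h2, h1, Finset.sum_range]
    have h3 : ∀ i : Fin (k + 2), ((-1 : ℤ) ^ (i : ℕ)) •
        κ (if h : (i : ℕ) < k + 2 then x ⟨i, h⟩ else e) = ((-1 : ℤ) ^ (i : ℕ)) • κ (x i) := by
      intro i
      simp
    rw [Finset.sum_congr rfl (fun i _ => h3 i)]
  · exact absurd ⟨e⟩ hX

end Final

end Pool.Agent.Lib.MP_72b724_gt.H80
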